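import Pool.Agent.Helper8.Sey.Basic

/-!
# Project SEY, packet PRO: the colouring is proper
-/

set_option autoImplicit false

namespace Pool.Agent.Helper56.Sey

open Pool.Agent.Helper8.Sey

/-- If not all colours are forbidden, `pick` gives an allowed colour. -/
theorem pick_not {q : ℕ} [NeZero q] (π : Equiv.Perm (Fin q)) (X : Fin q → Prop)
    (h : ∃ a, ¬ X a) : ¬ X (Sys.pick π X) := by
  classical
  obtain ⟨a, ha⟩ := h
  have hne : (Finset.univ.filter fun t : Fin q => ¬ X (π t)).Nonempty :=
    ⟨π.symm a, by simpa using ha⟩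
  have h1 := Finset.min'_mem _ hne
  rw [Finset.mem_filter] at h1
  unfold Sys.pick
  rw [dif_pos (by convert hne)]
  convert h1.2

/-- one direction -/
theorem pro_aux (V : Type) [Fintype V] (P : Sys V) (ω : P.Om) (u v : V) (h : P.H.Adj u v)
    (hp : P.part u = P.part v) (hk : P.κ u < P.κ v) : P.col ω u ≠ P.col ω v := by
  intro hc
  have h1 : ∃ a, ¬ (∃ w, P.H.Adj w v ∧ P.part w = P.part v ∧ P.κ w < P.κ v ∧
      P.col ω w = a) := by
    by_contra hcon
    push Not at hcon
    have hsurj : Function.Surjective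
        (fun w : {w // P.H.Adj v w ∧ P.part w = P.part v} => P.col ω w.1) := by
      intro a
      obtain ⟨w, hw1, hw2, -, hw3⟩ := hcon a
      exact ⟨⟨w, hw1.symm, hw2⟩, hw3⟩
    have hcard := Nat.card_le_card_of_surjective _ hsurj
    have hD := P.hnear.2 v (P.part v) (P.part_lt v) (Or.inl rfl)
    have hq : Nat.card (Fin P.q) = P.D + P.J := by
      rw [Nat.card_eq_fintype_card, Fintype.card_fin]
      rfl
    have hJ := P.hJ
    omega
  have h2 := pick_not (ω v).1 _ h1
  rw [← P.col_eq ω v] at h2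
  exact h2 ⟨u, h, hp, hk, hc⟩

/-- packet PRO -/
theorem goalPRO : GoalPRO := by
  intro V _ P ω u v h hc
  have h1 := P.cl_inj (P.part_lt u) (P.part_lt v) hc
  rcases lt_trichotomy (P.κ u) (P.κ v) with hk | hk | hk
  · exact pro_aux V P ω u v h h1.1 hk h1.2
  · exact P.hκH u v h h1.1 hk
  · exact pro_aux V P ω v u h.symm h1.1.symm hk h1.2.symm

end Pool.Agent.Helper56.Sey
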